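import Pool.Agent.Work.MP_6237c7_co.FB.Bundle

set_option autoImplicit false
open scoped Pointwise

namespace Pool.Agent.Results.MP_6237c7_co.Fibrations

/-- First part: lattice polytopes fibred over an arbitrary lattice complex `X` in dimension `m`
whose top simplices have normalized volume at most `v`: over every simplex `s` of `X` the
polytope is the convex hull of its lattice points over the vertices of `s`.  The fibres are
arbitrary polygons (`n = 2`) or have facet normals with maximal minors at most `Δ`.  One factor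
`k`, polynomial in `v * Δ`, works for all of them.

Second part: bundles.  If `k' • Q` has a unimodular triangulation, then `(k * k') • P` has one
for every lattice polytope `P` over `Q` whose fibre over `x` is the hull of the values at `x` of
integral affine maps, with the same two kinds of fibres; `k` does not depend on `Q`, `k'` and the
affine maps. -/
theorem result :
    (∀ m n : ℕ, ∃ C : ℕ, ∀ v Δ : ℕ, 0 < v → 0 < Δ →
      ∃ k : ℕ, 0 < k ∧ k ≤ C * (v * Δ) ^ C ∧
      ∀ X : Geometry.SimplicialComplex ℝ (Fin m → ℝ), X.faces.Finite →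
        (∀ s ∈ X.faces, ∀ x ∈ s, ∀ i, ∃ z : ℤ, x i = (z : ℝ)) →
        (∀ s ∈ X.faces, s.card = m + 1 →
          MeasureTheory.volume (convexHull ℝ (s : Set (Fin m → ℝ))) ≤
            (v : ENNReal) / (m.factorial : ENNReal)) →
        ∀ V : Finset (Fin (m + n) → ℝ), (∀ x ∈ V, ∀ i, ∃ z : ℤ, x i = (z : ℝ)) →
          (interior (convexHull ℝ (V : Set (Fin (m + n) → ℝ)))).Nonempty →
          (∀ p ∈ convexHull ℝ (V : Set (Fin (m + n) → ℝ)),
            (fun i => p (Fin.castAdd n i)) ∈ X.space) →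
          (∀ s ∈ X.faces, ∀ p ∈ convexHull ℝ (V : Set (Fin (m + n) → ℝ)),
            (fun i => p (Fin.castAdd n i)) ∈ convexHull ℝ (s : Set (Fin m → ℝ)) →
            p ∈ convexHull ℝ {q | q ∈ convexHull ℝ (V : Set (Fin (m + n) → ℝ)) ∧
              (∀ i, ∃ z : ℤ, q i = (z : ℝ)) ∧ (fun i => q (Fin.castAdd n i)) ∈ s}) →
          (n = 2 ∨ ∃ (r : ℕ) (A : Matrix (Fin r) (Fin (m + n)) ℤ) (b : Fin r → ℤ),
            convexHull ℝ (V : Set (Fin (m + n) → ℝ)) =
              {x | ∀ j, ∑ i, (A j i : ℝ) * x i ≤ (b j : ℝ)} ∧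
            ∀ f : Fin n → Fin r, |(A.submatrix f (Fin.natAdd m)).det| ≤ (Δ : ℤ)) →
          ∃ K : Geometry.SimplicialComplex ℝ (Fin (m + n) → ℝ),
            K.faces.Finite ∧
            K.space = (k : ℝ) • convexHull ℝ (V : Set (Fin (m + n) → ℝ)) ∧
            (∀ s ∈ K.faces, ∀ x ∈ s, ∀ i, ∃ z : ℤ, x i = (z : ℝ)) ∧
            (∀ s ∈ K.faces, s.card = m + n + 1 →
              MeasureTheory.volume (convexHull ℝ (s : Set (Fin (m + n) → ℝ))) =
                (((m + n).factorial : ENNReal))⁻¹)) ∧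
    (∀ m n : ℕ, ∃ C : ℕ, ∀ Δ : ℕ, 0 < Δ →
      ∃ k : ℕ, 0 < k ∧ k ≤ C * Δ ^ C ∧
      ∀ (k' : ℕ) (Q : Set (Fin m → ℝ)), 0 < k' →
        (∃ X : Geometry.SimplicialComplex ℝ (Fin m → ℝ),
          X.faces.Finite ∧
          X.space = (k' : ℝ) • Q ∧
          (∀ s ∈ X.faces, ∀ x ∈ s, ∀ i, ∃ z : ℤ, x i = (z : ℝ)) ∧
          (∀ s ∈ X.faces, s.card = m + 1 →
            MeasureTheory.volume (convexHull ℝ (s : Set (Fin m → ℝ))) =
              ((m.factorial : ENNReal))⁻¹)) →
        ∀ (N : ℕ) (L : Fin N → Matrix (Fin n) (Fin m) ℤ) (t : Fin N → Fin n → ℤ)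
          (V : Finset (Fin (m + n) → ℝ)), (∀ x ∈ V, ∀ i, ∃ z : ℤ, x i = (z : ℝ)) →
          (interior (convexHull ℝ (V : Set (Fin (m + n) → ℝ)))).Nonempty →
          convexHull ℝ (V : Set (Fin (m + n) → ℝ)) =
            {p | (fun i => p (Fin.castAdd n i)) ∈ Q ∧
              (fun l => p (Fin.natAdd m l)) ∈ convexHull ℝ
                (Set.range fun (i : Fin N) (l : Fin n) =>
                  ∑ j, (L i l j : ℝ) * p (Fin.castAdd n j) + (t i l : ℝ))} →
          (n = 2 ∨ ∃ (r : ℕ) (A : Matrix (Fin r) (Fin (m + n)) ℤ) (b : Fin r → ℤ),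
            convexHull ℝ (V : Set (Fin (m + n) → ℝ)) =
              {x | ∀ j, ∑ i, (A j i : ℝ) * x i ≤ (b j : ℝ)} ∧
            ∀ f : Fin n → Fin r, |(A.submatrix f (Fin.natAdd m)).det| ≤ (Δ : ℤ)) →
          ∃ K : Geometry.SimplicialComplex ℝ (Fin (m + n) → ℝ),
            K.faces.Finite ∧
            K.space = ((k * k' : ℕ) : ℝ) • convexHull ℝ (V : Set (Fin (m + n) → ℝ)) ∧
            (∀ s ∈ K.faces, ∀ x ∈ s, ∀ i, ∃ z : ℤ, x i = (z : ℝ)) ∧
            (∀ s ∈ K.faces, s.card = m + n + 1 →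
              MeasureTheory.volume (convexHull ℝ (s : Set (Fin (m + n) → ℝ))) =
                (((m + n).factorial : ENNReal))⁻¹)) := by
  constructor
  · intro m n
    obtain ⟨C, hC⟩ := H79F.fib_main m n
    refine ⟨C, fun v Δ hv hΔ => ?_⟩
    obtain ⟨k, hk, hkC, h⟩ := hC v Δ hv hΔ
    refine ⟨k, hk, hkC, ?_⟩
    intro X hfin hX hvol V hint hne hcov hcay hdis
    refine h X hfin hX hvol V hint ?_ hcov hcay hdis
    rw [Finset.nonempty_iff_ne_empty]
    rintro rfl
    rw [Finset.coe_empty, convexHull_empty, interior_empty] at hne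
    exact Set.not_nonempty_empty hne
  · intro m n
    obtain ⟨C, hC⟩ := H79F.bundle_main m n
    refine ⟨C, fun Δ hΔ => ?_⟩
    obtain ⟨k, hk, hkC, h⟩ := hC Δ hΔ
    refine ⟨k, hk, hkC, ?_⟩
    intro k' Q hk' hX N L t V hint hne hV hdis
    refine h k' Q hk' hX N L t V hint ?_ hV hdis
    rw [Finset.nonempty_iff_ne_empty]
    rintro rfl
    rw [Finset.coe_empty, convexHull_empty, interior_empty] at hne
    exact Set.not_nonempty_empty hne

end Pool.Agent.Results.MP_6237c7_co.Fibrations
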