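import Pool.Agent.Work.MP_6237c7_co.LV.Main

set_option autoImplicit false
open scoped Pointwise

namespace Pool.Agent.Results.MP_6237c7_co.LocalVolume

/-- For every dimension `d` there is an exponent `C` such that for every `v` a single factor
`k ≤ v ^ C` works for all finite lattice complexes whose top simplices have normalized volume at
most `v`, whatever their number and their total volume. -/
theorem result :
    ∀ d : ℕ, ∃ C : ℕ, ∀ v : ℕ, 0 < v → ∃ k : ℕ, 0 < k ∧ k ≤ v ^ C ∧
      ∀ X : Geometry.SimplicialComplex ℝ (Fin d → ℝ),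
        X.faces.Finite →
        (∀ s ∈ X.faces, ∀ x ∈ s, ∀ i : Fin d, ∃ z : ℤ, x i = (z : ℝ)) →
        (∀ s ∈ X.faces, s.card = d + 1 →
          MeasureTheory.volume (convexHull ℝ (s : Set (Fin d → ℝ))) ≤
            (v : ENNReal) / (d.factorial : ENNReal)) →
        ∃ K : Geometry.SimplicialComplex ℝ (Fin d → ℝ),
          K.faces.Finite ∧
          K.space = (k : ℝ) • X.space ∧
          (∀ s ∈ K.faces, ∀ x ∈ s, ∀ i : Fin d, ∃ z : ℤ, x i = (z : ℝ)) ∧
          (∀ s ∈ K.faces, s.card = d + 1 →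
            MeasureTheory.volume (convexHull ℝ (s : Set (Fin d → ℝ))) =
              ((d.factorial : ENNReal))⁻¹) := by
  intro d
  obtain ⟨J, hJ⟩ := H79KMW.roundProp_all d
  exact ⟨4 * (d + 1) * J, fun v hv => ⟨J ^ (2 * (d + 1) * Nat.clog 2 v), pow_pos hJ.1 _,
    H79KMW.pow_bound d J v hv, fun X hfin hX hvol => H79KMW.main_complex hJ v X hfin hX hvol⟩⟩

end Pool.Agent.Results.MP_6237c7_co.LocalVolume
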