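import Pool.Agent.Work.MP_6237c7_co.LV.Tower

set_option autoImplicit false
open scoped Pointwise

namespace Pool.Agent.Results.MP_6237c7_co.ModularFibres

/-- For all `m`, `n`, `w` there is `C` such that for every `Δ` a single factor `k ≤ C * Δ ^ C`
works for all full-dimensional lattice polytopes in dimension `m + n` which are bounded by `w` in
the first `m` coordinates and are given by integer inequalities whose coefficients of the last
`n` coordinates have all maximal minors at most `Δ` in absolute value. -/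
theorem result :
    ∀ m n w : ℕ, ∃ C : ℕ, ∀ Δ : ℕ, 0 < Δ → ∃ k : ℕ, 0 < k ∧ k ≤ C * Δ ^ C ∧
      ∀ V : Finset (Fin (m + n) → ℝ),
        (∀ x ∈ V, ∀ i, ∃ z : ℤ, x i = (z : ℝ)) →
        (∀ x ∈ V, ∀ i : Fin m, |x (Fin.castAdd n i)| ≤ (w : ℝ)) →
        (interior (convexHull ℝ (V : Set (Fin (m + n) → ℝ)))).Nonempty →
        ∀ (r : ℕ) (A : Matrix (Fin r) (Fin (m + n)) ℤ) (b : Fin r → ℤ),
          convexHull ℝ (V : Set (Fin (m + n) → ℝ)) =
            {x | ∀ j, ∑ i, (A j i : ℝ) * x i ≤ (b j : ℝ)} →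
          (∀ f : Fin n → Fin r, |(A.submatrix f (Fin.natAdd m)).det| ≤ (Δ : ℤ)) →
          ∃ K : Geometry.SimplicialComplex ℝ (Fin (m + n) → ℝ),
            K.faces.Finite ∧
            K.space = (k : ℝ) • convexHull ℝ (V : Set (Fin (m + n) → ℝ)) ∧
            (∀ s ∈ K.faces, ∀ x ∈ s, ∀ i, ∃ z : ℤ, x i = (z : ℝ)) ∧
            (∀ s ∈ K.faces, s.card = m + n + 1 →
              MeasureTheory.volume (convexHull ℝ (s : Set (Fin (m + n) → ℝ))) =
                (((m + n).factorial : ENNReal))⁻¹) := by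
  intro m n w
  obtain ⟨C, hC⟩ := H79KMW.tower m n w
  refine ⟨C, fun Δ hΔ => ?_⟩
  obtain ⟨k, hk, hkC, h⟩ := hC Δ hΔ
  refine ⟨k, hk, hkC, fun V hint hbox hne r A b hAb hmin => ?_⟩
  refine h V hint hbox ?_ r A b hAb hmin
  rw [Finset.nonempty_iff_ne_empty]
  rintro rfl
  rw [Finset.coe_empty, convexHull_empty, interior_empty] at hne
  exact Set.not_nonempty_empty hne

end Pool.Agent.Results.MP_6237c7_co.ModularFibres
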