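import Pool.Agent.Work.MP_6237c7_co.BW.Final

set_option autoImplicit false
open scoped Pointwise

namespace Pool.Agent.Results.MP_6237c7_co.TwoLongDirections

/-- For all `n` and `w` one dilation factor `k` works for all full-dimensional lattice polytopes in
`ℝ^(n+2)` which have width at most `w` with respect to `n` linearly independent integer
functionals (polytopes of bounded width in all but two directions). -/
theorem result :
    ∀ n w : ℕ, ∃ k : ℕ, 0 < k ∧
      ∀ V : Finset (Fin (n + 2) → ℝ),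
        (∀ x ∈ V, ∀ i : Fin (n + 2), ∃ z : ℤ, x i = (z : ℝ)) →
        (interior (convexHull ℝ (V : Set (Fin (n + 2) → ℝ)))).Nonempty →
        (∃ φ : Fin n → Fin (n + 2) → ℤ, LinearIndependent ℤ φ ∧
          ∀ j : Fin n, ∀ x ∈ V, ∀ y ∈ V, |∑ i, (φ j i : ℝ) * (x i - y i)| ≤ w) →
        ∃ K : Geometry.SimplicialComplex ℝ (Fin (n + 2) → ℝ),
          K.faces.Finite ∧
          K.space = (k : ℝ) • convexHull ℝ (V : Set (Fin (n + 2) → ℝ)) ∧
          (∀ s ∈ K.faces, ∀ x ∈ s, ∀ i : Fin (n + 2), ∃ z : ℤ, x i = (z : ℝ)) ∧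
          (∀ s ∈ K.faces, s.card = n + 3 →
            MeasureTheory.volume (convexHull ℝ (s : Set (Fin (n + 2) → ℝ))) =
              (((n + 2).factorial : ENNReal))⁻¹) := by
  intro n w
  obtain ⟨k, hk, h⟩ := H6BW.mainS n w
  refine ⟨k, hk, fun V hV hint hφ => ?_⟩
  obtain ⟨X, h1, h2, h3, h4⟩ := h V hV hint hφ
  exact ⟨X, h1, h2, h3, h4⟩

end Pool.Agent.Results.MP_6237c7_co.TwoLongDirections
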